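import Mathlib
import Pool.Agent.Helper2.KC.Light

/-!
# Almost `k`-covers of the cube by light members

`Y` is a bounded set of coordinates. A hyperplane `∑ β_i x_i = 1` is light if at most two
coefficients outside `Y` are not zero and, if there are two, their sum is not one. For large `n`
every almost `k`-cover of `{0,1}ⁿ` in which all but boundedly many members are contained, on the
cube, in light hyperplanes has at least `n + C(k,2)` members.
-/

set_option autoImplicit false

open Finset

namespace Pool.Agent.Results.MP_1bf996_co.LightMembers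

/-- `H` is an affine hyperplane of `ℝⁿ`. -/
def IsHyperplane {n : ℕ} (H : Set (Fin n → ℝ)) : Prop :=
  ∃ (b : Fin n → ℝ) (c : ℝ), b ≠ 0 ∧ H = {x | ∑ i, b i * x i = c}

/-- `v` is a vertex of the cube `{0,1}ⁿ`. -/
def IsCubePoint {n : ℕ} (v : Fin n → ℝ) : Prop := ∀ i, v i = 0 ∨ v i = 1

/-- The family `H 0, …, H (N-1)` (repetitions allowed) is an almost `k`-cover of `{0,1}ⁿ` of
size `N`. -/
structure IsAlmostCover (n k N : ℕ) (H : Fin N → Set (Fin n → ℝ)) : Prop where
  hyperplane : ∀ j, IsHyperplane (H j)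
  avoids_zero : ∀ j, (0 : Fin n → ℝ) ∉ H j
  covers : ∀ v, IsCubePoint v → v ≠ 0 → k ≤ Nat.card {j // v ∈ H j}

/-- `H` is light with respect to the set `Y` of coordinates: all the vertices of the cube in `H`
satisfy an equation `∑ β_i x_i = 1` such that at most two coefficients `β_i` with `i ∉ Y` are not
zero and, if there are exactly two, their sum is not one. -/
def IsLight {n : ℕ} (Y : Finset (Fin n)) (H : Set (Fin n → ℝ)) : Prop :=
  ∃ β : Fin n → ℝ, (∀ v, IsCubePoint v → v ∈ H → ∑ i, β i * v i = 1) ∧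
    (Yᶜ.filter fun i => β i ≠ 0).card ≤ 2 ∧
    ((Yᶜ.filter fun i => β i ≠ 0).card = 2 → ∑ i ∈ Yᶜ, β i ≠ 1)

section aux

variable {n : ℕ}

/-- a hyperplane avoiding the origin -/
theorem exists_vec {H : Set (Fin n → ℝ)} (h : IsHyperplane H) (h0 : (0 : Fin n → ℝ) ∉ H) :
    ∃ b : Fin n → ℝ, H = {x | ∑ i, b i * x i = 1} := by
  obtain ⟨b, c, -, rfl⟩ := h
  have hc : c ≠ 0 := by
    intro hc
    apply h0
    simp [hc]
  refine ⟨fun i => b i / c, ?_⟩
  ext x
  simp only [Set.mem_ofPred_eq]
  have : ∑ i, b i / c * x i = (∑ i, b i * x i) / c := by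
    rw [Finset.sum_div]
    exact Finset.sum_congr rfl fun i _ => by ring
  rw [this, div_eq_one_iff_eq hc]

/-- light vectors -/
theorem light_of {Y : Finset (Fin n)} {β : Fin n → ℝ} (hY : Y.card + 2 ≤ n)
    (h1 : (Yᶜ.filter fun i => β i ≠ 0).card ≤ 2)
    (h2 : (Yᶜ.filter fun i => β i ≠ 0).card = 2 → ∑ i ∈ Yᶜ, β i ≠ 1) :
    Pool.Agent.Helper2.KC.Light Y β := by
  set T := Yᶜ.filter fun i => β i ≠ 0 with hT
  have hYc : 2 ≤ (Yᶜ).card := by
    rw [Finset.card_compl, Fintype.card_fin]
    omega
  obtain ⟨P, hTP, hPY, hPc⟩ := Finset.exists_subsuperset_card_eq (Finset.filter_subset _ _) h1 hYc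
  by_cases hT2 : T.card = 2
  · obtain ⟨i, j, hij, hTij⟩ := Finset.card_eq_two.1 hT2
    have hi : i ∈ T := by rw [hTij]; simp
    have hj : j ∈ T := by rw [hTij]; simp
    rw [hT, Finset.mem_filter, Finset.mem_compl] at hi hj
    refine ⟨i, j, hi.1, hj.1, hij, fun m hm hmi hmj => ?_, Or.inr ?_⟩
    · by_contra h0
      have : m ∈ T := by
        rw [hT, Finset.mem_filter, Finset.mem_compl]
        exact ⟨hm, h0⟩
      rw [hTij] at this
      simp [hmi, hmj] at this
    · have h3 := h2 hT2
      have h4 : ∑ m ∈ Yᶜ, β m = ∑ m ∈ T, β m := by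
        rw [hT, Finset.sum_filter_ne_zero]
      rw [h4, hTij, Finset.sum_pair hij] at h3
      exact h3
  · -- at most one
    obtain ⟨i, j, hij, hPij⟩ := Finset.card_eq_two.1 hPc
    have hiY : i ∉ Y := by
      have : i ∈ Yᶜ := hPY (by rw [hPij]; simp)
      simpa using this
    have hjY : j ∉ Y := by
      have : j ∈ Yᶜ := hPY (by rw [hPij]; simp)
      simpa using this
    have hout : ∀ m, m ∉ Y → m ≠ i → m ≠ j → β m = 0 := by
      intro m hm hmi hmj
      by_contra h0
      have : m ∈ P := hTP (by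
        rw [Finset.mem_filter, Finset.mem_compl]
        exact ⟨hm, h0⟩)
      rw [hPij] at this
      simp [hmi, hmj] at this
    by_cases hj0 : β j = 0
    · exact ⟨i, j, hiY, hjY, hij, hout, Or.inl hj0⟩
    · have hi0 : β i = 0 := by
        by_contra hi0
        apply hT2
        apply le_antisymm h1
        have : ({i, j} : Finset (Fin n)) ⊆ T := by
          intro m hm
          rw [Finset.mem_insert, Finset.mem_singleton] at hm
          rw [hT, Finset.mem_filter, Finset.mem_compl]
          rcases hm with rfl | rfl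
          · exact ⟨hiY, hi0⟩
          · exact ⟨hjY, hj0⟩
        have h3 := Finset.card_le_card this
        rwa [Finset.card_pair hij] at h3
      exact ⟨j, i, hjY, hiY, hij.symm, fun m hm h1 h2 => hout m hm h2 h1, Or.inl hi0⟩

end aux

/-- **Theorem.** For all `k ≥ 1`, `κ` and `A` there is `n₀` such that for `n ≥ n₀` every almost
`k`-cover of `{0,1}ⁿ` in which, for some set `Y` of at most `κ` coordinates, at most `A` members
are not light with respect to `Y`, has at least `n + C(k,2)` members. -/
theorem result (k : ℕ) (hk : 1 ≤ k) (κ A : ℕ) : ∃ n₀ : ℕ, ∀ n : ℕ, n₀ ≤ n →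
    ∀ (N : ℕ) (H : Fin N → Set (Fin n → ℝ)), IsAlmostCover n k N H →
      ∀ Y : Finset (Fin n), Y.card ≤ κ → Nat.card {j // ¬ IsLight Y (H j)} ≤ A →
        n + k.choose 2 ≤ N := by
  classical
  -- the general set-up
  have setup : ∀ (n N : ℕ) (H : Fin N → Set (Fin n → ℝ)), IsAlmostCover n k N H →
      ∀ Y : Finset (Fin n), Y.card + 2 ≤ n →
      ∃ b : Fin N → Fin n → ℝ,
        (∀ j, IsLight Y (H j) → Pool.Agent.Helper2.KC.Light Y (b j)) ∧
        (∀ u : Finset (Fin n), u.Nonempty →
          k ≤ (univ.filter (fun j => ∑ i ∈ u, b j i = 1)).card) := by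
    intro n N H hH Y hY
    have hex : ∀ j, ∃ b : Fin n → ℝ, (∀ v, IsCubePoint v → v ∈ H j → ∑ i, b i * v i = 1) ∧
        (IsLight Y (H j) → Pool.Agent.Helper2.KC.Light Y b) := by
      intro j
      by_cases hs : IsLight Y (H j)
      · obtain ⟨β, h1, h2, h3⟩ := hs
        exact ⟨β, h1, fun _ => light_of hY h2 h3⟩
      · obtain ⟨b, hb⟩ := exists_vec (hH.hyperplane j) (hH.avoids_zero j)
        exact ⟨b, fun v _ hv => by rw [hb] at hv; exact hv, fun h => absurd h hs⟩
    choose b hb1 hb2 using hex
    refine ⟨b, hb2, ?_⟩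
    intro u hu
    set v : Fin n → ℝ := fun i => if i ∈ u then 1 else 0 with hv'
    have hvc : IsCubePoint v := fun i => by
      by_cases hi : i ∈ u
      · right; simp [hv', hi]
      · left; simp [hv', hi]
    have hv0 : v ≠ 0 := by
      obtain ⟨i, hi⟩ := hu
      intro h
      have := congrFun h i
      simp [hv', hi] at this
    have h1 := hH.covers v hvc hv0
    rw [Nat.card_eq_fintype_card, Fintype.card_subtype] at h1
    refine h1.trans (Finset.card_le_card ?_)
    intro j hj
    rw [Finset.mem_filter] at hj ⊢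
    refine ⟨Finset.mem_univ _, ?_⟩
    have h2 := hb1 j v hvc hj.2
    rw [← h2]
    simp [hv']
  rcases Nat.lt_or_ge k 3 with hk3 | hk3
  · -- k = 1, 2
    refine ⟨κ + 2, ?_⟩
    intro n hn N H hH Y hY _
    obtain ⟨b, -, hcov⟩ := setup n N H hH Y (by omega)
    have hne : (univ : Finset (Fin n)).Nonempty := ⟨⟨0, by omega⟩, Finset.mem_univ _⟩
    obtain ⟨j0, -⟩ := Finset.card_pos.mp (lt_of_lt_of_le (by omega) (hcov _ hne))
    rcases Nat.lt_or_ge k 2 with hk2 | hk2
    · have hk1 : k = 1 := by omega
      subst hk1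
      have := Pool.Agent.Helper66.AC.star_poly (univ : Finset (Fin n)) (univ : Finset (Fin N)) b
        (fun _ => 0) 1 (fun u _ hu => by
          obtain ⟨j, hj⟩ := Finset.card_pos.mp (lt_of_lt_of_le (by omega) (hcov u hu))
          exact ⟨j, Finset.mem_univ _, (Finset.mem_filter.mp hj).2⟩)
        (fun u _ t ht1 ht2 => by omega)
      simpa using this
    · have hk2' : k = 2 := by omega
      subst hk2'
      have := Pool.Agent.Helper66.AC.star_poly (univ : Finset (Fin n))
        ((univ : Finset (Fin N)).erase j0) b (fun _ => 0) 1 (fun u _ hu => by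
          have h1 := hcov u hu
          have h2 : 0 < ((univ.filter (fun j => ∑ i ∈ u, b j i = 1)).erase j0).card := by
            have := Finset.pred_card_le_card_erase
              (s := univ.filter (fun j => ∑ i ∈ u, b j i = 1)) (a := j0)
            omega
          obtain ⟨j, hj⟩ := Finset.card_pos.mp h2
          rw [Finset.mem_erase, Finset.mem_filter] at hj
          exact ⟨j, Finset.mem_erase.mpr ⟨hj.1, Finset.mem_univ _⟩, hj.2.2⟩)
        (fun u _ t ht1 ht2 => by omega)
      rw [Finset.card_erase_of_mem (Finset.mem_univ _)] at this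
      simp only [Finset.card_univ, Fintype.card_fin] at this
      have hN : 0 < N := j0.pos
      have h2 : Nat.choose 2 2 = 1 := rfl
      have h1 : Nat.choose 1 2 = 0 := rfl
      omega
  · -- k ≥ 3
    obtain ⟨n₀, hn₀⟩ := Pool.Agent.Helper2.KC.light k κ A hk3
    refine ⟨n₀ + κ + 2, ?_⟩
    intro n hn N H hH Y hY hA
    obtain ⟨b, hb, hcov⟩ := setup n N H hH Y (by omega)
    rw [Nat.card_eq_fintype_card, Fintype.card_subtype] at hA
    have h1 := hn₀ b hcov Y (univ.filter fun j => ¬ IsLight Y (H j)) hY hA (fun g hg => by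
      rw [Finset.mem_filter] at hg
      push Not at hg
      exact hb g (hg (Finset.mem_univ g))) (by rw [Fintype.card_fin]; omega)
    rwa [Fintype.card_fin, Fintype.card_fin] at h1

end Pool.Agent.Results.MP_1bf996_co.LightMembers
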