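import Pool.Agent.Helper68.LG.Main
import Pool.Agent.Helper68.LG.Lower
import Pool.Agent.Helper66.AC.Poly

/-!
# The order of magnitude of the minimum size of an almost `k`-cover

`(n + k log (n + 1)) / 2 ≤ f(n, k) ≤ n + 41 k log (n + 1)` for all `n, k ≥ 1`. In particular
`f(n, k) < n + C(k, 2)` whenever `n + 1 < exp ((k - 1) / 82)`: the threshold in the conjecture
`f(n, k) = n + C(k, 2)` for `n ≥ n₀(k)` is at least exponential in `k`.
-/

set_option autoImplicit false

open Finset

namespace Pool.Agent.Results.MP_1bf996_co.LogExcess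

/-- `H` is an affine hyperplane of `ℝⁿ`. -/
def IsHyperplane {n : ℕ} (H : Set (Fin n → ℝ)) : Prop :=
  ∃ (b : Fin n → ℝ) (c : ℝ), b ≠ 0 ∧ H = {x | ∑ i, b i * x i = c}

/-- `v` is a vertex of the cube `{0,1}ⁿ`. -/
def IsCubePoint {n : ℕ} (v : Fin n → ℝ) : Prop := ∀ i, v i = 0 ∨ v i = 1

/-- The family `H 0, …, H (N-1)` (repetitions allowed) is an almost `k`-cover of `{0,1}ⁿ` of
size `N`. -/
structure IsAlmostCover (n k N : ℕ) (H : Fin N → Set (Fin n → ℝ)) : Prop where
  hyperplane : ∀ j, IsHyperplane (H j)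
  avoids_zero : ∀ j, (0 : Fin n → ℝ) ∉ H j
  covers : ∀ v, IsCubePoint v → v ≠ 0 → k ≤ Nat.card {j // v ∈ H j}

/-- The minimum size of an almost `k`-cover of `{0,1}ⁿ`. -/
noncomputable def f (n k : ℕ) : ℕ := sInf {N | ∃ H : Fin N → Set (Fin n → ℝ), IsAlmostCover n k N H}

/-- The hyperplane `∑ i ∈ A, x i = 1`. -/
def plane {n : ℕ} (A : Finset (Fin n)) : Set (Fin n → ℝ) := {x | ∑ i ∈ A, x i = 1}

theorem plane_hyp {n : ℕ} {A : Finset (Fin n)} (hA : A.Nonempty) : IsHyperplane (plane A) := by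
  refine ⟨fun i => if i ∈ A then 1 else 0, 1, ?_, ?_⟩
  · obtain ⟨i, hi⟩ := hA
    intro h
    have := congrFun h i
    simp [hi] at this
  · ext x
    simp [plane]

theorem plane_zero {n : ℕ} (A : Finset (Fin n)) : (0 : Fin n → ℝ) ∉ plane A := by
  simp [plane]

/-- A vertex of the cube is the indicator of its support. -/
theorem sum_cube {n : ℕ} {v : Fin n → ℝ} (hv : IsCubePoint v) (A : Finset (Fin n)) :
    ∑ i ∈ A, v i = ((A ∩ univ.filter fun i => v i = 1).card : ℝ) := by
  classical
  have h1 : ∀ i, v i = if v i = 1 then 1 else 0 := by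
    intro i
    rcases hv i with h | h <;> simp [h]
  rw [sum_congr rfl fun i _ => h1 i, ← sum_filter, sum_const, nsmul_eq_mul, mul_one]
  congr 2
  ext i
  simp

theorem upper {n k : ℕ} (hn : 1 ≤ n) (hk : 1 ≤ k) :
    ∃ (m : ℕ) (A : Fin m → Finset (Fin n)), (m : ℝ) ≤ 41 * k * Real.log (n + 1) ∧
      IsAlmostCover n k (n + m)
        (Fin.append (fun i : Fin n => plane {i}) (fun j : Fin m => plane (A j))) := by
  classical
  obtain ⟨m, A, hm, hne, hA⟩ := Pool.Agent.Helper68.LG.exists_family hn hk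
  refine ⟨m, A, hm, ?_, ?_, ?_⟩
  · intro j
    refine Fin.addCases (fun i => ?_) (fun i => ?_) j
    · rw [Fin.append_left]
      exact plane_hyp (singleton_nonempty i)
    · rw [Fin.append_right]
      exact plane_hyp (hne i)
  · intro j
    refine Fin.addCases (fun i => ?_) (fun i => ?_) j
    · rw [Fin.append_left]
      exact plane_zero _
    · rw [Fin.append_right]
      exact plane_zero _
  · intro v hv hv0
    set x : Finset (Fin n) := univ.filter fun i => v i = 1 with hx
    have hxne : x.Nonempty := by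
      by_contra h
      rw [not_nonempty_iff_eq_empty, hx, filter_eq_empty_iff] at h
      apply hv0
      funext i
      rcases hv i with h1 | h1
      · exact h1
      · exact absurd h1 (h (mem_univ i))
    by_cases hxk : k ≤ x.card
    · refine hxk.trans ?_
      have h1 : Nat.card x ≤ Nat.card {j // v ∈ Fin.append (fun i : Fin n => plane {i})
          (fun j : Fin m => plane (A j)) j} := by
        refine Nat.card_le_card_of_injective (fun i => ⟨Fin.castAdd m i.1, ?_⟩) ?_
        · rw [Fin.append_left]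
          have h2 : v i.1 = 1 := (mem_filter.1 i.2).2
          simp [plane, h2]
        · intro i i' h
          have := congrArg (fun q => q.1) h
          exact Subtype.ext (Fin.castAdd_injective n m this)
      simpa using h1
    · refine (hA x hxne (by omega)).trans ?_
      refine Nat.card_le_card_of_injective (fun i => ⟨Fin.natAdd n i.1, ?_⟩) ?_
      · rw [Fin.append_right]
        have := i.2
        show ∑ i ∈ A i.1, v i = 1
        rw [sum_cube hv, this]
        norm_num
      · intro i i' h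
        have := congrArg (fun q => q.1) h
        exact Subtype.ext (Fin.natAdd_injective m n this)

/-- Normal form of an almost cover. -/
theorem normal {n k N : ℕ} {H : Fin N → Set (Fin n → ℝ)} (h : IsAlmostCover n k N H) :
    ∃ a : Fin N → Fin n → ℝ, ∀ x : Finset (Fin n), x.Nonempty →
      k ≤ (univ.filter fun j => ∑ i ∈ x, a j i = 1).card := by
  classical
  have h1 : ∀ j, ∃ a : Fin n → ℝ, ∀ v, v ∈ H j ↔ ∑ i, a i * v i = 1 := by
    intro j
    obtain ⟨b, c, -, hH⟩ := h.hyperplane j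
    have hc : c ≠ 0 := by
      rintro rfl
      apply h.avoids_zero j
      rw [hH]
      simp
    refine ⟨fun i => b i / c, fun v => ?_⟩
    rw [hH]
    show ∑ i, b i * v i = c ↔ _
    have h2 : ∑ i, b i / c * v i = (∑ i, b i * v i) / c := by
      rw [sum_div]
      exact sum_congr rfl fun i _ => by ring
    rw [h2, div_eq_one_iff_eq hc]
  choose a ha using h1
  refine ⟨a, fun x hx => ?_⟩
  set v : Fin n → ℝ := fun i => if i ∈ x then 1 else 0 with hv
  have h2 := h.covers v (fun i => by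
    by_cases hi : i ∈ x
    · right; simp [hv, hi]
    · left; simp [hv, hi]) (by
    obtain ⟨i, hi⟩ := hx
    intro h0
    have := congrFun h0 i
    simp [hv, hi] at this)
  rw [Nat.card_eq_fintype_card, Fintype.card_subtype] at h2
  refine h2.trans (card_le_card ?_)
  intro j hj
  rw [mem_filter] at hj ⊢
  refine ⟨mem_univ _, ?_⟩
  have h3 := (ha j v).1 hj.2
  rw [← h3]
  simp [hv]

theorem lower {n k N : ℕ} (hk : 1 ≤ k) {H : Fin N → Set (Fin n → ℝ)} (h : IsAlmostCover n k N H) :
    ((n : ℝ) + k * Real.log (n + 1)) / 2 ≤ N := by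
  classical
  obtain ⟨a, ha⟩ := normal h
  have h1 : n ≤ N := by
    have h2 := Pool.Agent.Helper66.AC.star_poly (univ : Finset (Fin n)) (univ : Finset (Fin N)) a
      (fun _ => 0) 1 (fun u _ hu => by
        have h3 := ha u hu
        obtain ⟨w, hw⟩ := card_pos.1 (lt_of_lt_of_le hk h3)
        rw [mem_filter] at hw
        exact ⟨w, hw.1, hw.2⟩) (fun u _ t h3 h4 => absurd h4 (by omega))
    simpa using h2
  have h2 := Pool.Agent.Helper68.LG.harmonic_le a ha
  have h3 : Real.log ((n : ℝ) + 1) ≤ ∑ t ∈ range n, (1 : ℝ) / (t + 1) := by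
    have h4 := log_add_one_le_harmonic n
    rw [harmonic] at h4
    push_cast at h4
    simpa [one_div] using h4
  have h5 : (n : ℝ) ≤ N := by exact_mod_cast h1
  have h6 : (k : ℝ) * Real.log ((n : ℝ) + 1) ≤ N :=
    (mul_le_mul_of_nonneg_left h3 (Nat.cast_nonneg k)).trans h2
  linarith

theorem result :
    -- the `n` hyperplanes `x i = 1` and at most `41 k log (n + 1)` further hyperplanes `x(A) = 1`
    (∀ n k : ℕ, 1 ≤ n → 1 ≤ k → ∃ (m : ℕ) (A : Fin m → Finset (Fin n)),
      (m : ℝ) ≤ 41 * k * Real.log (n + 1) ∧ IsAlmostCover n k (n + m)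
        (Fin.append (fun i : Fin n => plane {i}) (fun j : Fin m => plane (A j)))) ∧
    -- the order of magnitude
    (∀ n k : ℕ, 1 ≤ n → 1 ≤ k → ((n : ℝ) + k * Real.log (n + 1)) / 2 ≤ f n k ∧
      (f n k : ℝ) ≤ n + 41 * k * Real.log (n + 1)) ∧
    -- smaller than the conjectured value if `n` is less than exponential in `k`
    (∀ n k : ℕ, 1 ≤ n → 1 ≤ k → (n : ℝ) + 1 < Real.exp (((k : ℝ) - 1) / 82) →
      f n k < n + k.choose 2) ∧
    -- the threshold of the conjecture
    (∀ k n₀ : ℕ, 1 ≤ k → 1 ≤ n₀ → (∀ n, n₀ ≤ n → f n k = n + k.choose 2) →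
      Real.exp (((k : ℝ) - 1) / 82) ≤ n₀ + 1) := by
  have hf : ∀ n k : ℕ, 1 ≤ n → 1 ≤ k → ((n : ℝ) + k * Real.log (n + 1)) / 2 ≤ f n k ∧
      (f n k : ℝ) ≤ n + 41 * k * Real.log (n + 1) := by
    intro n k hn hk
    obtain ⟨m, A, hm, hA⟩ := upper hn hk
    have hmem : n + m ∈ {N | ∃ H : Fin N → Set (Fin n → ℝ), IsAlmostCover n k N H} := ⟨_, hA⟩
    constructor
    · obtain ⟨H, hH⟩ := Nat.sInf_mem ⟨_, hmem⟩
      exact lower hk hH
    · have h1 : f n k ≤ n + m := Nat.sInf_le hmem
      have h2 : (f n k : ℝ) ≤ n + m := by exact_mod_cast h1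
      linarith
  have h3 : ∀ n k : ℕ, 1 ≤ n → 1 ≤ k → (n : ℝ) + 1 < Real.exp (((k : ℝ) - 1) / 82) →
      f n k < n + k.choose 2 := by
    intro n k hn hk h
    have h1 := (hf n k hn hk).2
    have hn0 : (0 : ℝ) < (n : ℝ) + 1 := by positivity
    have h2 : Real.log ((n : ℝ) + 1) < ((k : ℝ) - 1) / 82 := by
      rw [Real.log_lt_iff_lt_exp hn0]
      exact h
    have hk0 : (0 : ℝ) < k := by exact_mod_cast hk
    have h4 : (f n k : ℝ) < n + k.choose 2 := by
      rw [Nat.cast_choose_two]
      nlinarith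
    exact_mod_cast h4
  refine ⟨fun n k hn hk => upper hn hk, hf, h3, ?_⟩
  intro k n₀ hk hn h
  by_contra hcon
  rw [not_le] at hcon
  have h1 := h3 n₀ k hn hk hcon
  rw [h n₀ le_rfl] at h1
  exact lt_irrefl _ h1

end Pool.Agent.Results.MP_1bf996_co.LogExcess
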