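import Mathlib
import Pool.Agent.Helper13.NC.Main

/-!
# Almost `k`-covers of the cube by hyperplanes with nonnegative coefficients

For `k ≥ 3` and `n` large, every almost `k`-cover of `{0,1}ⁿ` by hyperplanes `∑ b_i x_i = 1` with
`b_i ≥ 0` has at least `n + C(k,2)` members.  More generally it is enough that every nonzero
vertex of the cube lies on at least three of the sets `∑ max(b_i, 0) x_i = 1`.
-/

set_option autoImplicit false

open Finset

namespace Pool.Agent.Results.MP_1bf996_co.PositiveCovers

/-- `H` is an affine hyperplane of `ℝⁿ`. -/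
def IsHyperplane {n : ℕ} (H : Set (Fin n → ℝ)) : Prop :=
  ∃ (b : Fin n → ℝ) (c : ℝ), b ≠ 0 ∧ H = {x | ∑ i, b i * x i = c}

/-- `v` is a vertex of the cube `{0,1}ⁿ`. -/
def IsCubePoint {n : ℕ} (v : Fin n → ℝ) : Prop := ∀ i, v i = 0 ∨ v i = 1

/-- Every nonzero vertex of the cube lies in at least `k` of the sets `H 0, …, H (N-1)`. -/
def Covers (n k N : ℕ) (H : Fin N → Set (Fin n → ℝ)) : Prop :=
  ∀ v, IsCubePoint v → v ≠ 0 → k ≤ Nat.card {j // v ∈ H j}

/-- The family `H 0, …, H (N-1)` (repetitions allowed) is an almost `k`-cover of `{0,1}ⁿ` of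
size `N`. -/
structure IsAlmostCover (n k N : ℕ) (H : Fin N → Set (Fin n → ℝ)) : Prop where
  hyperplane : ∀ j, IsHyperplane (H j)
  avoids_zero : ∀ j, (0 : Fin n → ℝ) ∉ H j
  covers : Covers n k N H

/-- For `k ≥ 3` there is `n₀` such that for `n ≥ n₀` every almost `k`-cover
`{∑ b_j i x_i = 1}` of `{0,1}ⁿ`, in which either all coefficients are nonnegative or the positive
parts of the equations still cover every nonzero vertex three times, has at least `n + C(k,2)`
members. -/
theorem result (k : ℕ) (hk : 3 ≤ k) : ∃ n₀ : ℕ, ∀ n : ℕ, n₀ ≤ n →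
    ∀ (N : ℕ) (H : Fin N → Set (Fin n → ℝ)) (b : Fin N → Fin n → ℝ), IsAlmostCover n k N H →
      (∀ j, H j = {x | ∑ i, b j i * x i = 1}) →
      (∀ j i, 0 ≤ b j i) ∨ Covers n 3 N (fun j => {x | ∑ i, max (b j i) 0 * x i = 1}) →
      n + k.choose 2 ≤ N := by
  classical
  obtain ⟨m, hm⟩ := Pool.Agent.Helper13.NC.main k hk
  refine ⟨m, ?_⟩
  intro n hn N H b hH hb hpos
  have hcov0 : Covers n k N (fun j => {x | ∑ i, b j i * x i = 1}) := by
    have h1 := hH.covers
    have h2 : H = fun j => {x | ∑ i, b j i * x i = 1} := funext hb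
    rwa [h2] at h1
  have hcov3 : Covers n 3 N (fun j => {x | ∑ i, max (b j i) 0 * x i = 1}) := by
    rcases hpos with h | h
    · have h1 : (fun j => {x : Fin n → ℝ | ∑ i, max (b j i) 0 * x i = 1}) =
          fun j => {x | ∑ i, b j i * x i = 1} := by
        funext j
        ext x
        simp only [Set.mem_ofPred_eq]
        rw [Finset.sum_congr rfl fun i _ => by rw [max_eq_left (h j i)]]
      rw [h1]
      exact fun v hv hv0 => hk.trans (hcov0 v hv hv0)
    · exact h
  -- passage from vertices to sets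
  have key : ∀ (c : Fin N → Fin n → ℝ) (l : ℕ), Covers n l N (fun j => {x | ∑ i, c j i * x i = 1}) →
      ∀ u : Finset (Fin n), u.Nonempty → l ≤ (univ.filter (fun j => ∑ i ∈ u, c j i = 1)).card := by
    intro c l hc u hu
    set v : Fin n → ℝ := fun i => if i ∈ u then 1 else 0 with hv'
    have hv0 : v ≠ 0 := by
      obtain ⟨i, hi⟩ := hu
      intro h
      have := congrFun h i
      simp [hv', hi] at this
    have h1 := hc v (fun i => by
      by_cases hi : i ∈ u
      · right; simp [hv', hi]
      · left; simp [hv', hi]) hv0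
    rw [Nat.card_eq_fintype_card, Fintype.card_subtype] at h1
    refine h1.trans (Finset.card_le_card ?_)
    intro j hj
    rw [Finset.mem_filter] at hj ⊢
    refine ⟨Finset.mem_univ _, ?_⟩
    have h2 := hj.2
    rw [Set.mem_ofPred_eq] at h2
    rw [← h2]
    simp [hv']
  have hcov : Pool.Agent.Helper13.NC.IsCov k b (univ : Finset (Fin n)) := by
    refine ⟨fun X _ hX => key b k hcov0 X hX, fun X _ hX => ?_⟩
    exact key (fun j i => max (b j i) 0) 3 hcov3 X hX
  have h1 := hm (Fin n) (Fin N) b univ hcov (by simpa using hn)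
  have h2 : (Pool.Agent.Helper13.NC.alive b (univ : Finset (Fin n))).card ≤ N := by
    refine (Finset.card_le_univ _).trans ?_
    simp
  simp only [Finset.card_univ, Fintype.card_fin] at h1
  omega

end Pool.Agent.Results.MP_1bf996_co.PositiveCovers
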