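import Mathlib
import Pool.Agent.Helper58.CV.Red
import Pool.Agent.Helper58.CV.Ker
import Pool.Agent.Helper58.BD.Red

/-!
# Almost `k`-covers of the cube with sparse coordinates

Let `d ≥ 1` and `k + 1 ≥ 6 d`. Every almost `k`-cover of `{0,1}ⁿ` in which a large (but bounded) number of
coordinates occur on average in at most `d + 1 - ε` members outside a bounded set `S` of members has at least
`n + k - 1 + ∑_{t ≥ 3} (k - d t)⁺` members; for `d = 1` this is `n + C(k,2) - (k - 2)`. It has at least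
`n + ∑_{t ≥ 1} (k - d t)⁺` members if at most `(k - 1 + ∑_{t ≥ 3} (k - d t)⁺) / 2` members of `S` take more than `M`
values on these coordinates. For `d = 1` the last bound is the conjectured `n + C(k,2)`; it holds also if
`|S| ≤ k² + k - 5`, or if the members outside `S` in which these coordinates occur involve together only `M` others.
-/

set_option autoImplicit false

open Finset

namespace Pool.Agent.Results.MP_1bf996_co.SparseCoordinates

/-- `H` is an affine hyperplane of `ℝⁿ`. -/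
def IsHyperplane {n : ℕ} (H : Set (Fin n → ℝ)) : Prop :=
  ∃ (b : Fin n → ℝ) (c : ℝ), b ≠ 0 ∧ H = {x | ∑ i, b i * x i = c}

/-- `v` is a vertex of the cube `{0,1}ⁿ`. -/
def IsCubePoint {n : ℕ} (v : Fin n → ℝ) : Prop := ∀ i, v i = 0 ∨ v i = 1

/-- The family `H 0, …, H (N-1)` (repetitions allowed) is an almost `k`-cover of `{0,1}ⁿ` of
size `N`. -/
structure IsAlmostCover (n k N : ℕ) (H : Fin N → Set (Fin n → ℝ)) : Prop where
  hyperplane : ∀ j, IsHyperplane (H j)
  avoids_zero : ∀ j, (0 : Fin n → ℝ) ∉ H j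
  covers : ∀ v, IsCubePoint v → v ≠ 0 → k ≤ Nat.card {j // v ∈ H j}

/-- For `k ≥ 3`, `d ≥ 1`, `ε > 0` and all `A`, `M` there is `n₀` such that the following holds for every almost
`k`-cover `H_0, …, H_{N-1}` of `{0,1}ⁿ`. Let `b_j` be vectors such that all the vertices of the cube in `H_j` satisfy
`∑ b_j i x_i = 1` (for instance the equation of `H_j`), `S` a set of at most `A` members and `X` a set of at least
`n₀` coordinates which occur on average in at most `d + 1 - ε` of the equations of the members outside `S`.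

* If `k + 1 ≥ 6 d` then `N ≥ n + (k - 1) + ∑_{3 ≤ t ≤ k} (k - d t)⁺` (the subtraction of natural numbers is
  truncated).
* Let `a` be the number of members in `S` with more than `M` different coefficients on `X`. If
  `2 a + 1 ≤ k + ∑_{3 ≤ t ≤ k} (k - d t)⁺`, or if `d = 1` and `|S| ≤ k² + k - 5`, or if `d = 1` and there is a set `Y`
  of at most `M` coordinates such that every member outside `S` in which some `i ∈ X` occurs has no other coordinate
  outside `Y`, then `N ≥ n + ∑_{1 ≤ t ≤ k} (k - d t)⁺`. For `d = 1` this is `n + C(k,2)`. -/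
theorem result (k : ℕ) (hk : 3 ≤ k) (d : ℕ) (hd : 1 ≤ d) (ε : ℝ) (hε : 0 < ε) (A M : ℕ) : ∃ n₀ : ℕ,
    ∀ (n N : ℕ) (H : Fin N → Set (Fin n → ℝ)) (b : Fin N → Fin n → ℝ), IsAlmostCover n k N H →
      (∀ j v, IsCubePoint v → v ∈ H j → ∑ i, b j i * v i = 1) →
      ∀ (X : Finset (Fin n)) (S : Finset (Fin N)), n₀ ≤ X.card → S.card ≤ A →
        ∑ i ∈ X, ((univ.filter fun j => j ∉ S ∧ b j i ≠ 0).card : ℝ) ≤ (d + 1 - ε) * X.card →
        (6 * d ≤ k + 1 → n + (k - 1) + ∑ t ∈ Icc 3 k, (k - d * t) ≤ N) ∧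
          ((2 * (S.filter fun j => M < (X.image (b j)).card).card + 1 ≤ k + ∑ t ∈ Icc 3 k, (k - d * t) ∨
              d = 1 ∧ (S.card + 5 ≤ k ^ 2 + k ∨
                ∃ Y : Finset (Fin n), Y.card ≤ M ∧
                  ∀ j, j ∉ S → ∀ i ∈ X, b j i ≠ 0 → ∀ i', i' ∉ Y → b j i' ≠ 0 → i' = i)) →
            n + ∑ t ∈ Icc 1 k, (k - d * t) ≤ N) := by
  classical
  obtain ⟨n₀, h⟩ := Pool.Agent.H58CV.sparse k hk (A + k ^ 2 + k) M
  obtain ⟨n₁, h'⟩ := Pool.Agent.H58CV.kernel k A M (by omega)
  obtain ⟨n₂, h''⟩ := Pool.Agent.H58BD.bounded k d hk hd A M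
  obtain ⟨m, hm⟩ := exists_nat_ge ((d + 1) * ((n₀ + n₁ + n₂ : ℕ) : ℝ) / ε)
  refine ⟨m, ?_⟩
  intro n N H b hH hb X S hX hS hdeg
  have hXε : (d + 1) * ((n₀ + n₁ + n₂ : ℕ) : ℝ) ≤ ε * X.card := by
    have h1 : (m : ℝ) ≤ X.card := by exact_mod_cast hX
    have h2 := hm.trans h1
    rw [div_le_iff₀ hε] at h2
    linarith
  have hcov : ∀ x : Fin n → ℝ, (∀ i, x i = 0 ∨ x i = 1) → x ≠ 0 →
      k ≤ (univ.filter fun g => Pool.Agent.H58CV.lf b g x = 1).card := by
    intro x hx hx0
    have h1 := hH.covers x hx hx0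
    rw [Nat.card_eq_fintype_card, Fintype.card_subtype] at h1
    refine h1.trans (Finset.card_le_card fun j hj => ?_)
    rw [mem_filter] at hj ⊢
    refine ⟨mem_univ _, ?_⟩
    exact hb j x hx hj.2
  have hcov' : ∀ u : Finset (Fin n), u.Nonempty → k ≤ (univ.filter fun g => ∑ v ∈ u, b g v = 1).card := by
    intro u hu
    refine (hcov (fun i => if i ∈ u then 1 else 0) (fun i => ?_) ?_).trans (Finset.card_le_card fun g hg => ?_)
    · by_cases hi : i ∈ u
      · exact Or.inr (if_pos hi)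
      · exact Or.inl (if_neg hi)
    · obtain ⟨i, hi⟩ := hu
      intro h0
      have h3 := congrFun h0 i
      simp only [hi, if_true, Pi.zero_apply] at h3
      exact one_ne_zero h3
    · rw [mem_filter] at hg ⊢
      refine ⟨mem_univ _, ?_⟩
      have h3 := hg.2
      unfold Pool.Agent.H58CV.lf at h3
      rw [← h3]
      simp
  -- the coordinates of degree at most `d`
  set X₁ := X.filter fun i => (univ.filter fun j => j ∉ S ∧ b j i ≠ 0).card ≤ d with hX₁
  have hX₁c : n₀ + n₁ + n₂ ≤ X₁.card := Pool.Agent.H58BD.few_large X _ hε hdeg hXε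
  have hX₁X : X₁ ⊆ X := Finset.filter_subset _ _
  have hX₁M : (S.filter fun j => M < (X₁.image (b j)).card).card ≤
      (S.filter fun j => M < (X.image (b j)).card).card := by
    refine Finset.card_le_card fun j hj => ?_
    rw [mem_filter] at hj ⊢
    exact ⟨hj.1, hj.2.trans_le (Finset.card_le_card (Finset.image_subset_image hX₁X))⟩
  obtain ⟨hA, hB⟩ := h'' b hcov' X₁ S (by omega) hS fun i hi => (mem_filter.1 hi).2
  rw [Fintype.card_fin] at hA hB
  refine ⟨hA, fun hcond => ?_⟩
  rcases hcond with h2 | ⟨rfl, hcond⟩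
  · exact hB (by omega)
  have hsum : ∑ t ∈ Icc 1 k, (k - 1 * t) = k.choose 2 := by
    have h1 : ∑ t ∈ Icc 1 k, (k - 1 * t) = ∑ t ∈ range k, t := by
      rw [← Finset.sum_range_reflect]
      have h2 : Icc 1 k = (range k).image fun t => t + 1 := by
        ext t
        simp only [mem_Icc, mem_image, mem_range]
        constructor
        · intro ht
          exact ⟨t - 1, by omega, by omega⟩
        · rintro ⟨s, hs, rfl⟩
          omega
      rw [h2, Finset.sum_image fun s _ t _ hst => by simpa using hst]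
      refine Finset.sum_congr rfl fun t _ => ?_
      omega
    rw [h1, Finset.sum_range_id, Nat.choose_two_right]
  rw [hsum]
  have huniq : ∀ i ∈ X₁, ∀ g, g ∉ S → ∀ g', g' ∉ S → b g i ≠ 0 → b g' i ≠ 0 → g = g' := by
    intro i hi g hg g' hg' hgi hgi'
    exact Finset.card_le_one.1 (mem_filter.1 hi).2 g (mem_filter.2 ⟨mem_univ _, hg, hgi⟩) g'
      (mem_filter.2 ⟨mem_univ _, hg', hgi'⟩)
  rcases hcond with h2 | ⟨Y, hYM, hY⟩
  · have h1 := h b hcov X₁ S (by omega) (by omega) huniq (Or.inr h2)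
    rwa [Fintype.card_fin] at h1
  · have h1 := h' b hcov' X₁ S Y (by omega) hS hYM huniq (fun j hj i hi => hY j hj i (hX₁X hi))
    rwa [Fintype.card_fin] at h1

end Pool.Agent.Results.MP_1bf996_co.SparseCoordinates
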